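import Pool.Agent.Lib.MP_351e72_co.Pull

namespace Pool.Agent.Results.MP_351e72_co.Determinant

open Pool.Agent.Lib.MP_351e72_co.G

theorem result :
    ∃ (d : ℕ) (ε : ℝ) (v w : List (Sym2 (Fin d) → ℝ)),
      (sdet d).IsHomogeneous d ∧ MvPolynomial.eval (idm d) (sdet d) ≠ 0 ∧
      (∀ x, (line (sdet d) (idm d) x).Splits) ∧
      0 < ε ∧ ε < 1 ∧ ⌊d / ε⌋₊ + 1 ≤ v.length ∧
      w = List.replicate ⌊d / ε⌋₊ ((ε / d) • idm d) ++ [(1 - ⌊d / ε⌋₊ * ε / d) • idm d] ++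
        List.replicate (v.length - (⌊d / ε⌋₊ + 1)) 0 ∧
      Adm (sdet d) (idm d) ε v ∧ Adm (sdet d) (idm d) ε w ∧
      ∃ t ∈ (chi (sdet d) (idm d) v).roots, ∀ s, (chi (sdet d) (idm d) w).IsRoot s → s < t := by
  have hk : ⌊((60 + 1 : ℕ) : ℝ) / (2 / 3)⌋₊ = 91 := by
    rw [Nat.floor_eq_iff (by norm_num)]; norm_num
  have hl : (Lib.MP_351e72_co.vv.map (Lib.MP_351e72_co.ph (Lib.MP_351e72_co.cc 60))).length
      = 92 := by
    rw [List.length_map, Lib.MP_351e72_co.vv, List.length_append, List.length_replicate]; rfl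
  refine ⟨60 + 1, 2 / 3, Lib.MP_351e72_co.vv.map (Lib.MP_351e72_co.ph (Lib.MP_351e72_co.cc 60)),
    Lib.MP_351e72_co.ww.map (Lib.MP_351e72_co.ph (Lib.MP_351e72_co.cc 60)),
    Lib.MP_351e72_co.sdet_hom _, by rw [Lib.MP_351e72_co.sdet_idm]; exact one_ne_zero,
    Lib.MP_351e72_co.splits_sdet _, by norm_num, by norm_num, by rw [hk, hl], ?_, ?_, ?_, ?_⟩
  · rw [hk, hl, Nat.sub_self, List.replicate_zero, List.append_nil,
      show (2 / 3 : ℝ) / (60 + 1 : ℕ) = 2 / 183 by norm_num,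
      show (1 - (91 : ℕ) * (2 / 3) / (60 + 1 : ℕ) : ℝ) = 1 / 183 by norm_num,
      Lib.MP_351e72_co.ww, List.map_append, List.map_replicate, List.map_singleton, map_smul,
      map_smul, Lib.MP_351e72_co.ph_ee]
  · rw [← Lib.MP_351e72_co.ph_ee]
    exact Lib.MP_351e72_co.adm_pb _ (Lib.MP_351e72_co.pb_hh ▸ Lib.MP_351e72_co.adm_vv)
  · rw [← Lib.MP_351e72_co.ph_ee]
    exact Lib.MP_351e72_co.adm_pb _ (Lib.MP_351e72_co.pb_hh ▸ Lib.MP_351e72_co.adm_ww)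
  · obtain ⟨t, ht, hr⟩ := Lib.MP_351e72_co.root_vv
    rw [← Lib.MP_351e72_co.ph_ee, Lib.MP_351e72_co.chi_pb, Lib.MP_351e72_co.chi_pb,
      Lib.MP_351e72_co.pb_hh]
    exact ⟨t, hr, fun s hs => (Lib.MP_351e72_co.root_conj hs).trans_le ht⟩

end Pool.Agent.Results.MP_351e72_co.Determinant
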